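import Mathlib

set_option autoImplicit false

open Module

namespace Pool.Agent.Results.MP_385815_al.Z2

/-- Cellular algebras in the sense of Graham and Lehrer. -/
def IsCellular (A : Type) [Ring A] [Algebra ℂ A] : Prop :=
  ∃ (Λ : Type) (_ : Fintype Λ) (_ : PartialOrder Λ) (M : Λ → Type) (_ : ∀ l, Fintype (M l))
    (C : Basis (Σ l, M l × M l) ℂ A) (st : A →ₗ[ℂ] A),
    (∀ a b, st (a * b) = st b * st a) ∧ (∀ a, st (st a) = a) ∧
    (∀ l S T, st (C ⟨l, S, T⟩) = C ⟨l, T, S⟩) ∧
    ∀ (a : A) (l : Λ), ∃ r : M l → M l → ℂ, ∀ S T : M l,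
      a * C ⟨l, S, T⟩ - ∑ S', r S' S • C ⟨l, S', T⟩ ∈
        Submodule.span ℂ {z : A | ∃ μ, μ < l ∧ ∃ U V : M μ, z = C ⟨μ, U, V⟩}

/-- Generators: 0 is x in the dual space, 1 is y in h, 2 is the reflection s. -/
abbrev Fr := FreeAlgebra ℂ (Fin 3)
noncomputable def gx : Fr := FreeAlgebra.ι ℂ 0
noncomputable def gy : Fr := FreeAlgebra.ι ℂ 1
noncomputable def gs : Fr := FreeAlgebra.ι ℂ 2

/-- Defining relations of the restricted rational Cherednik algebra of W = Z/2, parameter c. -/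
def Rel (c : ℂ) (a b : Fr) : Prop :=
  (a = gs * gs ∧ b = 1) ∨ (a = gs * gx ∧ b = -(gx * gs)) ∨ (a = gs * gy ∧ b = -(gy * gs)) ∨
  (a = gy * gx - gx * gy ∧ b = -((c * 2) • gs)) ∨ (a = gx * gx ∧ b = 0) ∨ (a = gy * gy ∧ b = 0)

/-- The restricted rational Cherednik algebra of W = Z/2 acting on ℂ by -1. -/
abbrev RCA (c : ℂ) : Type := RingQuot (Rel c)

theorem trace_int {n : Type} [Fintype n] [DecidableEq n] (R : Matrix n n ℂ) (h : R * R = 1) :
    ∃ k : ℤ, R.trace = k := by
  have h1 : IsIdempotentElem (Matrix.toLin' ((1 / 2 : ℂ) • (1 + R))) := by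
    unfold IsIdempotentElem
    rw [Module.End.mul_eq_comp, ← Matrix.toLin'_mul]
    congr 1
    simp only [Matrix.smul_mul, Matrix.mul_smul, Matrix.add_mul, Matrix.mul_add, h,
      Matrix.one_mul, Matrix.mul_one]
    module
  have h2 := (LinearMap.IsIdempotentElem.isProj_range _ h1).trace
  rw [Matrix.trace_toLin'_eq, Matrix.trace_smul, Matrix.trace_add, Matrix.trace_one] at h2
  refine ⟨2 * (finrank ℂ (LinearMap.range (Matrix.toLin' ((1 / 2 : ℂ) • (1 + R)))) : ℤ)
    - Fintype.card n, ?_⟩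
  push_cast
  rw [← h2]
  simp only [smul_eq_mul]
  ring

theorem exists_vec {n : Type} [Fintype n] [DecidableEq n] [Nonempty n] (X Y S : Matrix n n ℂ)
    (hX : X * X = 0) (hY : Y * Y = 0) (hXY : Y * X = X * Y) (hSX : S * X = -(X * S))
    (hSY : S * Y = -(Y * S)) (hS : S * S = 1) :
    ∃ f : n → ℂ, f ≠ 0 ∧ Matrix.vecMul f X = 0 ∧ Matrix.vecMul f Y = 0 ∧
      ∃ c : ℂ, Matrix.vecMul f S = c • f := by
  have h0 : ∃ Z : Matrix n n ℂ, Z ≠ 0 ∧ Z * X = 0 ∧ Z * Y = 0 := by
    by_cases h1 : X * Y = 0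
    · by_cases h2 : X = 0
      · by_cases h3 : Y = 0
        · exact ⟨1, one_ne_zero, by simp [h2], by simp [h3]⟩
        · exact ⟨Y, h3, by simp [h2], hY⟩
      · exact ⟨X, h2, hX, h1⟩
    · refine ⟨X * Y, h1, ?_, ?_⟩
      · rw [Matrix.mul_assoc, hXY, ← Matrix.mul_assoc, hX, Matrix.zero_mul]
      · rw [Matrix.mul_assoc, hY, Matrix.mul_zero]
  obtain ⟨Z, hZ, hZX, hZY⟩ := h0
  have h1 : ∃ W : Matrix n n ℂ, W ≠ 0 ∧ W * X = 0 ∧ W * Y = 0 ∧ ∃ c : ℂ, W * S = c • W := by
    by_cases h : Z + Z * S = 0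
    · refine ⟨Z, hZ, hZX, hZY, -1, ?_⟩
      rw [neg_one_smul]
      exact eq_neg_of_add_eq_zero_right h
    · refine ⟨Z + Z * S, h, ?_, ?_, 1, ?_⟩
      · rw [Matrix.add_mul, Matrix.mul_assoc, hSX, Matrix.mul_neg, ← Matrix.mul_assoc, hZX]; simp
      · rw [Matrix.add_mul, Matrix.mul_assoc, hSY, Matrix.mul_neg, ← Matrix.mul_assoc, hZY]; simp
      · rw [Matrix.add_mul, Matrix.mul_assoc, hS, Matrix.mul_one, one_smul, add_comm]
  obtain ⟨W, hW, hWX, hWY, c, hWS⟩ := h1
  obtain ⟨i, hi⟩ : ∃ i, W i ≠ 0 := by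
    by_contra h
    push Not at h
    exact hW (funext h)
  refine ⟨W i, hi, ?_, ?_, c, ?_⟩
  · exact congrFun hWX i
  · exact congrFun hWY i
  · exact congrFun hWS i

theorem general (A : Type) [Ring A] [Algebra ℂ A] [Nontrivial A] (x y s : A)
    (hX : x * x = 0) (hY : y * y = 0) (hXY : y * x = x * y) (hSX : s * x = -(x * s))
    (hSY : s * y = -(y * s)) (hS : s * s = 1)
    (hgen : ∀ P : A → Prop, P x → P y → P s → (∀ c : ℂ, P (algebraMap ℂ A c)) →
      (∀ a b, P a → P b → P (a * b)) → (∀ a b, P a → P b → P (a + b)) → ∀ a, P a)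
    (htr : ∀ t : A, LinearMap.trace ℂ A (LinearMap.mulLeft ℂ s ∘ₗ LinearMap.mulRight ℂ t) = 0) :
    ¬ IsCellular A := by
  classical
  rintro ⟨Λ, _, _, M, _, C, st, hst, hst2, hC, hr⟩
  choose r hr using hr
  let low : Λ → Submodule ℂ A := fun l =>
    Submodule.span ℂ {z : A | ∃ μ, μ < l ∧ ∃ U V : M μ, z = C ⟨μ, U, V⟩}
  have low0 : ∀ l (z : A), z ∈ low l → ∀ (i : Σ l, M l × M l), ¬ i.1 < l → C.repr z i = 0 := by
    intro l z hz i hi
    induction hz using Submodule.span_induction with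
    | mem z h =>
      obtain ⟨μ, hμ, U, V, rfl⟩ := h
      rw [Basis.repr_self, Finsupp.single_apply, if_neg]
      rintro rfl
      exact hi hμ
    | zero => simp
    | add a b _ _ ha hb => simp [ha, hb]
    | smul c a _ ha => simp [ha]
  have lowmono : ∀ μ l, μ < l → low μ ≤ low l := by
    intro μ l h
    apply Submodule.span_mono
    rintro _ ⟨ν, hν, U, V, rfl⟩
    exact ⟨ν, hν.trans h, U, V, rfl⟩
  have lowmul : ∀ l (a z : A), z ∈ low l → a * z ∈ low l := by
    intro l a z hz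
    induction hz using Submodule.span_induction with
    | mem z h =>
      obtain ⟨μ, hμ, U, V, rfl⟩ := h
      have h1 := lowmono μ l hμ (hr a μ U V)
      have h2 : ∑ S', r a μ S' U • C ⟨μ, S', V⟩ ∈ low l :=
        Submodule.sum_mem _ fun S' _ => Submodule.smul_mem _ _
          (Submodule.subset_span ⟨μ, hμ, S', V, rfl⟩)
      simpa using Submodule.add_mem _ h1 h2
    | zero => simp
    | add a b _ _ ha hb => rw [mul_add]; exact Submodule.add_mem _ ha hb
    | smul c a _ ha => rw [mul_smul_comm]; exact Submodule.smul_mem _ _ ha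
  have lowst : ∀ l (z : A), z ∈ low l → st z ∈ low l := by
    intro l z hz
    induction hz using Submodule.span_induction with
    | mem z h =>
      obtain ⟨μ, hμ, U, V, rfl⟩ := h
      rw [hC]
      exact Submodule.subset_span ⟨μ, hμ, V, U, rfl⟩
    | zero => simp
    | add a b _ _ ha hb => rw [map_add]; exact Submodule.add_mem _ ha hb
    | smul c a _ ha => rw [map_smul]; exact Submodule.smul_mem _ _ ha
  have reprC : ∀ l (S T S' T' : M l), C.repr (C ⟨l, S, T⟩) ⟨l, S', T'⟩ =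
      if S = S' ∧ T = T' then 1 else 0 := by
    intro l S T S' T'
    rw [Basis.repr_self, Finsupp.single_apply]
    simp
  have coef : ∀ (a : A) l (S T S' T' : M l), C.repr (a * C ⟨l, S, T⟩) ⟨l, S', T'⟩ =
      if T = T' then r a l S' S else 0 := by
    intro a l S T S' T'
    have h1 := low0 l _ (hr a l S T) ⟨l, S', T'⟩ (lt_irrefl _)
    rw [map_sub, Finsupp.sub_apply, sub_eq_zero] at h1
    rw [h1, map_sum, Finsupp.finset_sum_apply]
    simp only [map_smul, Finsupp.smul_apply, reprC, smul_eq_mul]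
    by_cases h : T = T' <;> simp [h]
  let ρ : A → (l : Λ) → Matrix (M l) (M l) ℂ := fun a l => Matrix.of (r a l)
  have ρmul : ∀ (a b : A) l, ρ (a * b) l = ρ a l * ρ b l := by
    intro a b l
    ext S' S
    have h1 := coef (a * b) l S S S' S
    have h2 := low0 l _ (lowmul l a _ (hr b l S S)) ⟨l, S', S⟩ (lt_irrefl _)
    rw [mul_sub, map_sub, Finsupp.sub_apply, sub_eq_zero, ← mul_assoc, h1, Finset.mul_sum,
      map_sum, Finsupp.finset_sum_apply] at h2
    simp only [mul_smul_comm, map_smul, Finsupp.smul_apply, coef, smul_eq_mul, if_true] at h2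
    simp only [ρ, Matrix.mul_apply, Matrix.of_apply, h2, mul_comm]
  have ρone : ∀ l, ρ 1 l = 1 := by
    intro l
    ext S' S
    have h1 := coef 1 l S S S' S
    rw [one_mul, reprC] at h1
    simp only [ρ, Matrix.of_apply, Matrix.one_apply]
    simp only [if_true, and_true] at h1
    rw [← h1]
    simp [eq_comm]
  have ρadd : ∀ (a b : A) l, ρ (a + b) l = ρ a l + ρ b l := by
    intro a b l
    ext S' S
    have h1 := coef (a + b) l S S S' S
    rw [add_mul, map_add, Finsupp.add_apply, coef, coef] at h1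
    simpa [ρ] using h1.symm
  have ρsmul : ∀ (c : ℂ) (a : A) l, ρ (c • a) l = c • ρ a l := by
    intro c a l
    ext S' S
    have h1 := coef (c • a) l S S S' S
    rw [smul_mul_assoc, map_smul, Finsupp.smul_apply, coef] at h1
    simpa [ρ] using h1.symm
  have ρzero : ∀ l, ρ 0 l = 0 := by
    intro l
    have := ρsmul 0 0 l
    simpa using this
  have ρneg : ∀ a l, ρ (-a) l = - ρ a l := by
    intro a l
    have := ρsmul (-1) a l
    simpa using this
  have diag : ∀ l (S T : M l), C.repr (s * (C ⟨l, S, T⟩ * st s)) ⟨l, S, T⟩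
      = r s l S S * r s l T T := by
    intro l S T
    have h1 := lowst l _ (hr s l T S)
    rw [map_sub, hst, hC, map_sum] at h1
    simp only [map_smul, hC] at h1
    have h2 := low0 l _ (lowmul l s _ h1) ⟨l, S, T⟩ (lt_irrefl _)
    rw [mul_sub, map_sub, Finsupp.sub_apply, sub_eq_zero, Finset.mul_sum,
      map_sum, Finsupp.finset_sum_apply] at h2
    simp only [mul_smul_comm, map_smul, Finsupp.smul_apply, coef, smul_eq_mul] at h2
    rw [h2]
    simp [mul_comm]
  have hsum : ∑ l, (ρ s l).trace * (ρ s l).trace = 0 := by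
    have h1 := htr (st s)
    rw [LinearMap.trace_eq_matrix_trace ℂ C, Matrix.trace] at h1
    simp only [Matrix.diag_apply, LinearMap.toMatrix_apply, LinearMap.comp_apply,
      LinearMap.mulLeft_apply, LinearMap.mulRight_apply] at h1
    rw [Fintype.sum_sigma] at h1
    rw [← h1]
    refine Finset.sum_congr rfl fun l _ => ?_
    rw [Fintype.sum_prod_type, Matrix.trace, Finset.sum_mul_sum]
    refine Finset.sum_congr rfl fun S _ => Finset.sum_congr rfl fun T _ => ?_
    rw [diag]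
    rfl
  have hint : ∀ l, ∃ k : ℤ, (ρ s l).trace = k := fun l =>
    trace_int _ (by rw [← ρmul, hS, ρone])
  choose k hk using hint
  have hk0 : ∀ l, k l = 0 := by
    simp only [hk] at hsum
    have h1 : ∑ l, k l * k l = 0 := by exact_mod_cast hsum
    rw [Finset.sum_eq_zero_iff_of_nonneg (fun l _ => mul_self_nonneg _)] at h1
    intro l
    exact mul_self_eq_zero.1 (h1 l (Finset.mem_univ _))
  obtain ⟨i0⟩ := C.index_nonempty
  obtain ⟨l, hl, hmax⟩ := (Set.toFinite {l | Nonempty (M l)}).exists_maximal ⟨i0.1, ⟨i0.2.1⟩⟩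
  have hl' : Nonempty (M l) := hl
  have col : ∀ (a z : A) (T : M l), (fun S => C.repr (a * z) ⟨l, S, T⟩)
      = Matrix.mulVec (ρ a l) (fun S => C.repr z ⟨l, S, T⟩) := by
    intro a z T
    have hz : z ∈ Submodule.span ℂ (Set.range C) := by rw [C.span_eq]; trivial
    induction hz using Submodule.span_induction with
    | mem z h =>
      obtain ⟨⟨μ, U, V⟩, rfl⟩ := h
      funext S
      by_cases hμ : μ = l
      · subst hμ
        simp only [coef, reprC, Matrix.mulVec, dotProduct, ρ, Matrix.of_apply]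
        by_cases h : V = T <;> simp [h]
      · have hne : ∀ (U V : M μ) (S T : M l), C.repr (C ⟨μ, U, V⟩) ⟨l, S, T⟩ = 0 := by
          intro U V S T
          rw [Basis.repr_self, Finsupp.single_apply, if_neg]
          intro h
          exact hμ (congrArg Sigma.fst h)
        have h1 := low0 μ _ (hr a μ U V) ⟨l, S, T⟩ (fun h => hμ
          (le_antisymm (hmax (show Nonempty (M μ) from ⟨U⟩) h.le) h.le))
        rw [map_sub, Finsupp.sub_apply, sub_eq_zero, map_sum, Finsupp.finset_sum_apply] at h1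
        simp only [map_smul, Finsupp.smul_apply, hne, smul_zero, Finset.sum_const_zero] at h1
        simp only [h1, hne, Matrix.mulVec, dotProduct, mul_zero, Finset.sum_const_zero]
    | zero => funext S; simp [Matrix.mulVec, dotProduct]
    | add u v _ _ hu hv =>
      have : (fun S => C.repr (u + v) ⟨l, S, T⟩) =
          (fun S => C.repr u ⟨l, S, T⟩) + (fun S => C.repr v ⟨l, S, T⟩) := by
        funext S; simp
      rw [this, Matrix.mulVec_add, ← hu, ← hv]
      funext S; simp [mul_add]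
    | smul c u _ hu =>
      have : (fun S => C.repr (c • u) ⟨l, S, T⟩) = c • (fun S => C.repr u ⟨l, S, T⟩) := by
        funext S; simp
      rw [this, Matrix.mulVec_smul, ← hu]
      funext S; simp
  obtain ⟨f, hf, hfX, hfY, c, hfS⟩ := exists_vec (ρ x l) (ρ y l) (ρ s l)
    (by rw [← ρmul, hX, ρzero]) (by rw [← ρmul, hY, ρzero]) (by rw [← ρmul, ← ρmul, hXY])
    (by rw [← ρmul, ← ρmul, hSX, ρneg]) (by rw [← ρmul, ← ρmul, hSY, ρneg])
    (by rw [← ρmul, hS, ρone])
  have hall : ∀ a : A, ∃ e : ℂ, Matrix.vecMul f (ρ a l) = e • f := by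
    apply hgen
    · exact ⟨0, by simp [hfX]⟩
    · exact ⟨0, by simp [hfY]⟩
    · exact ⟨c, hfS⟩
    · intro e
      refine ⟨e, ?_⟩
      rw [Algebra.algebraMap_eq_smul_one, ρsmul, ρone, Matrix.vecMul_smul, Matrix.vecMul_one]
    · rintro a b ⟨e, he⟩ ⟨e', he'⟩
      refine ⟨e * e', ?_⟩
      rw [ρmul, ← Matrix.vecMul_vecMul, he, Matrix.smul_vecMul, he', smul_smul]
    · rintro a b ⟨e, he⟩ ⟨e', he'⟩
      refine ⟨e + e', ?_⟩
      rw [ρadd, Matrix.vecMul_add, he, he', add_smul]
  obtain ⟨S0, hS0⟩ : ∃ S0, f S0 ≠ 0 := by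
    by_contra h
    push Not at h
    exact hf (funext h)
  have key : ∀ T' : M l, ∃ e : ℂ, ∀ T : M l, (if T' = T then f S0 else 0)
      = e * (f ⬝ᵥ fun S => C.repr 1 ⟨l, S, T⟩) := by
    intro T'
    obtain ⟨e, he⟩ := hall (C ⟨l, S0, T'⟩)
    refine ⟨e, fun T => ?_⟩
    have h1 := congrArg (fun v => f ⬝ᵥ v) (col (C ⟨l, S0, T'⟩) 1 T)
    simp only [Matrix.dotProduct_mulVec, he, mul_one, reprC, smul_dotProduct, smul_eq_mul] at h1
    rw [← h1]
    by_cases h : T' = T <;> simp [h, dotProduct]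
  have hsub : ∀ T T' : M l, T' = T := by
    intro T T'
    by_contra hne
    obtain ⟨e, he⟩ := key T
    obtain ⟨e', he'⟩ := key T'
    have h1 := he T
    have h2 := he' T'
    have h3 := he' T
    rw [if_pos rfl] at h1 h2
    rw [if_neg hne] at h3
    rcases mul_eq_zero.1 h3.symm with h | h
    · rw [h, zero_mul] at h2; exact hS0 h2
    · rw [h, mul_zero] at h1; exact hS0 h1
  have h1 : (ρ s l).trace = ρ s l S0 S0 := by
    rw [Matrix.trace, Finset.sum_eq_single S0]
    · rfl
    · intro b _ hb; exact absurd (hsub S0 b) hb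
    · simp
  have h2 : ρ s l S0 S0 * ρ s l S0 S0 = 1 := by
    have h3 : ρ s l * ρ s l = 1 := by rw [← ρmul, hS, ρone]
    have h4 := congrFun (congrFun h3 S0) S0
    rw [Matrix.mul_apply, Finset.sum_eq_single S0] at h4
    · simpa using h4
    · intro b _ hb; exact absurd (hsub S0 b) hb
    · simp
  rw [← h1, hk, hk0] at h2
  simp at h2

def mX : Matrix (Fin 8) (Fin 8) ℤ := Matrix.of fun i j => if i.val = j.val + 4 then 1 else 0
def mY : Matrix (Fin 8) (Fin 8) ℤ :=
  Matrix.of fun i j => if i.val = j.val + 2 ∧ j.val % 4 < 2 then 1 else 0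
def mS : Matrix (Fin 8) (Fin 8) ℤ :=
  Matrix.of fun i j => if i.val / 2 = j.val / 2 ∧ i ≠ j then
    (if i.val / 2 = 0 ∨ i.val / 2 = 3 then 1 else -1) else 0
def mB : Fin 8 → Matrix (Fin 8) (Fin 8) ℤ :=
  ![1, mS * 1, mY * 1, mY * (mS * 1), mX * 1, mX * (mS * 1), mX * (mY * 1), mX * (mY * (mS * 1))]

theorem m1 : mS * mS = 1 := by decide +kernel
theorem m2 : mS * mX = -(mX * mS) := by decide +kernel
theorem m3 : mS * mY = -(mY * mS) := by decide +kernel
theorem m4 : mY * mX = mX * mY := by decide +kernel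
theorem m5 : mX * mX = 0 := by decide +kernel
theorem m6 : mY * mY = 0 := by decide +kernel
theorem m7 : ∀ i j, mB j i 0 = if i = j then 1 else 0 := by decide +kernel
theorem m8 : ∀ j, ∑ i, (mS * (mB i * mB j)) i 0 = 0 := by decide +kernel

noncomputable def cz : Matrix (Fin 8) (Fin 8) ℤ →+* Matrix (Fin 8) (Fin 8) ℂ :=
  (Int.castRingHom ℂ).mapMatrix

noncomputable def rep0 : Fr →ₐ[ℂ] Matrix (Fin 8) (Fin 8) ℂ :=
  FreeAlgebra.lift ℂ ![cz mX, cz mY, cz mS]

theorem rep0x : rep0 gx = cz mX := by simp [rep0, gx]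
theorem rep0y : rep0 gy = cz mY := by simp [rep0, gy]
theorem rep0s : rep0 gs = cz mS := by simp [rep0, gs]

theorem rep0_rel : ∀ ⦃a b : Fr⦄, Rel 0 a b → rep0 a = rep0 b := by
  rintro a b (⟨rfl, rfl⟩ | ⟨rfl, rfl⟩ | ⟨rfl, rfl⟩ | ⟨rfl, rfl⟩ | ⟨rfl, rfl⟩ | ⟨rfl, rfl⟩)
  · rw [map_mul, rep0s, ← map_mul, m1, map_one, map_one]
  · rw [map_neg, map_mul, map_mul, rep0s, rep0x, ← map_mul, ← map_mul, m2, map_neg]
  · rw [map_neg, map_mul, map_mul, rep0s, rep0y, ← map_mul, ← map_mul, m3, map_neg]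
  · rw [map_sub, map_mul, map_mul, rep0x, rep0y, ← map_mul, ← map_mul, m4]; simp
  · rw [map_mul, rep0x, ← map_mul, m5, map_zero, map_zero]
  · rw [map_mul, rep0y, ← map_mul, m6, map_zero, map_zero]

noncomputable def rep : RCA 0 →ₐ[ℂ] Matrix (Fin 8) (Fin 8) ℂ :=
  RingQuot.liftAlgHom ℂ ⟨rep0, rep0_rel⟩

noncomputable def ax : RCA 0 := RingQuot.mkAlgHom ℂ (Rel 0) gx
noncomputable def ay : RCA 0 := RingQuot.mkAlgHom ℂ (Rel 0) gy
noncomputable def as : RCA 0 := RingQuot.mkAlgHom ℂ (Rel 0) gs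

theorem repx : rep ax = cz mX := by
  rw [rep, ax, RingQuot.liftAlgHom_mkAlgHom_apply, rep0x]
theorem repy : rep ay = cz mY := by
  rw [rep, ay, RingQuot.liftAlgHom_mkAlgHom_apply, rep0y]
theorem reps : rep as = cz mS := by
  rw [rep, as, RingQuot.liftAlgHom_mkAlgHom_apply, rep0s]

theorem a1 : as * as = 1 := by
  have := RingQuot.mkAlgHom_rel ℂ (s := Rel 0) (Or.inl ⟨rfl, rfl⟩)
  simpa [as] using this
theorem a2 : as * ax = -(ax * as) := by
  have := RingQuot.mkAlgHom_rel ℂ (s := Rel 0) (Or.inr (Or.inl ⟨rfl, rfl⟩))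
  simpa [as, ax] using this
theorem a3 : as * ay = -(ay * as) := by
  have := RingQuot.mkAlgHom_rel ℂ (s := Rel 0) (Or.inr (Or.inr (Or.inl ⟨rfl, rfl⟩)))
  simpa [as, ay] using this
theorem a4 : ay * ax = ax * ay := by
  have := RingQuot.mkAlgHom_rel ℂ (s := Rel 0) (Or.inr (Or.inr (Or.inr (Or.inl ⟨rfl, rfl⟩))))
  simpa [ax, ay, sub_eq_zero] using this
theorem a5 : ax * ax = 0 := by
  have := RingQuot.mkAlgHom_rel ℂ (s := Rel 0)
    (Or.inr (Or.inr (Or.inr (Or.inr (Or.inl ⟨rfl, rfl⟩)))))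
  simpa [ax] using this
theorem a6 : ay * ay = 0 := by
  have := RingQuot.mkAlgHom_rel ℂ (s := Rel 0)
    (Or.inr (Or.inr (Or.inr (Or.inr (Or.inr ⟨rfl, rfl⟩)))))
  simpa [ay] using this

theorem hgen (P : RCA 0 → Prop) (hx : P ax) (hy : P ay) (hs : P as)
    (hc : ∀ c : ℂ, P (algebraMap ℂ (RCA 0) c))
    (hm : ∀ a b, P a → P b → P (a * b)) (ha : ∀ a b, P a → P b → P (a + b)) (a : RCA 0) : P a := by
  obtain ⟨a, rfl⟩ := RingQuot.mkAlgHom_surjective ℂ (Rel 0) a
  induction a using FreeAlgebra.induction with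
  | grade0 c => rw [AlgHom.commutes]; exact hc c
  | grade1 i =>
    fin_cases i
    · exact hx
    · exact hy
    · exact hs
  | mul a b h1 h2 => rw [map_mul]; exact hm _ _ h1 h2
  | add a b h1 h2 => rw [map_add]; exact ha _ _ h1 h2

noncomputable def bb : Fin 8 → RCA 0 :=
  ![1, as * 1, ay * 1, ay * (as * 1), ax * 1, ax * (as * 1), ax * (ay * 1), ax * (ay * (as * 1))]

theorem rep_bb (i : Fin 8) : rep (bb i) = cz (mB i) := by
  fin_cases i <;> simp [bb, mB, repx, repy, reps]

theorem span_bb : ⊤ ≤ Submodule.span ℂ (Set.range bb) := by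
  have nm : ∀ a b : RCA 0, (-a) * b = -(a * b) := fun a b => neg_mul (α := RCA 0) a b
  have mn : ∀ a b : RCA 0, -(a * (-b)) = a * b := fun a b =>
    (congrArg (fun z => -z) (mul_neg (α := RCA 0) a b)).trans (neg_neg _)
  have b1 : ∀ z, as * (as * z) = z := fun z => by rw [← mul_assoc, a1, one_mul]
  have b2 : ∀ z, as * (ax * z) = -(ax * (as * z)) := fun z => by
    rw [← mul_assoc, a2, nm, mul_assoc]
  have b3 : ∀ z, as * (ay * z) = -(ay * (as * z)) := fun z => by
    rw [← mul_assoc, a3, nm, mul_assoc]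
  have b4 : ∀ z, ay * (ax * z) = ax * (ay * z) := fun z => by
    rw [← mul_assoc, a4, mul_assoc]
  have b5 : ∀ z, ax * (ax * z) = 0 := fun z => by rw [← mul_assoc, a5, zero_mul]
  have b6 : ∀ z, ay * (ay * z) = 0 := fun z => by rw [← mul_assoc, a6, zero_mul]
  have hb : ∀ i, bb i ∈ Submodule.span ℂ (Set.range bb) := fun i => Submodule.subset_span ⟨i, rfl⟩
  have h0 := hb 0
  have h1 := hb 1
  have h2 := hb 2
  have h3 := hb 3
  have h4 := hb 4
  have h5 := hb 5
  have h6 := hb 6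
  have h7 := hb 7
  have key : ∀ g : RCA 0, (∀ i, g * bb i ∈ Submodule.span ℂ (Set.range bb)) →
      ∀ v ∈ Submodule.span ℂ (Set.range bb), g * v ∈ Submodule.span ℂ (Set.range bb) := by
    intro g hg v hv
    induction hv using Submodule.span_induction with
    | mem z h => obtain ⟨i, rfl⟩ := h; exact hg i
    | zero => simp
    | add a b _ _ ha hb => rw [mul_add]; exact Submodule.add_mem _ ha hb
    | smul c a _ ha => rw [mul_smul_comm]; exact Submodule.smul_mem _ _ ha
  have hall : ∀ a : RCA 0, ∀ v ∈ Submodule.span ℂ (Set.range bb),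
      a * v ∈ Submodule.span ℂ (Set.range bb) := by
    generalize Submodule.span ℂ (Set.range bb) = W at *
    apply hgen
    · apply key
      intro i
      fin_cases i
      · exact h4
      · exact h5
      · exact h6
      · exact h7
      all_goals (show ax * (ax * _) ∈ W; rw [b5]; exact W.zero_mem)
    · apply key
      intro i
      fin_cases i
      · exact h2
      · exact h3
      · show ay * (ay * _) ∈ W; rw [b6]; exact W.zero_mem
      · show ay * (ay * _) ∈ W; rw [b6]; exact W.zero_mem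
      · show ay * (ax * _) ∈ W; rw [b4]; exact h6
      · show ay * (ax * _) ∈ W; rw [b4]; exact h7
      · show ay * (ax * (ay * _)) ∈ W; rw [b4, b6, mul_zero]; exact W.zero_mem
      · show ay * (ax * (ay * _)) ∈ W; rw [b4, b6, mul_zero]; exact W.zero_mem
    · apply key
      intro i
      fin_cases i
      · exact h1
      · show as * (as * _) ∈ W; rw [b1]; exact h0
      · show as * (ay * _) ∈ W; rw [b3]; exact W.neg_mem h3
      · show as * (ay * (as * _)) ∈ W; rw [b3, b1]; exact W.neg_mem h2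
      · show as * (ax * _) ∈ W; rw [b2]; exact W.neg_mem h5
      · show as * (ax * (as * _)) ∈ W; rw [b2, b1]; exact W.neg_mem h4
      · show as * (ax * (ay * _)) ∈ W; rw [b2, b3, mn]; exact h7
      · show as * (ax * (ay * (as * _))) ∈ W; rw [b2, b3, b1, mn]; exact h6
    · intro c v hv
      rw [← Algebra.smul_def]; exact W.smul_mem _ hv
    · intro a b ha hb v hv
      rw [mul_assoc]; exact ha _ (hb _ hv)
    · intro a b ha hb v hv
      rw [add_mul]; exact W.add_mem (ha _ hv) (hb _ hv)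
  intro a _
  simpa using hall a 1 h0

noncomputable def co (i : Fin 8) : RCA 0 →ₗ[ℂ] ℂ where
  toFun a := rep a i 0
  map_add' a b := by simp
  map_smul' c a := by simp

theorem co_bb (i j : Fin 8) : co i (bb j) = if i = j then 1 else 0 := by
  show rep (bb j) i 0 = _
  rw [rep_bb]
  show ((mB j i 0 : ℤ) : ℂ) = _
  rw [m7]
  split_ifs <;> simp

theorem li_bb : LinearIndependent ℂ bb := by
  rw [Fintype.linearIndependent_iff]
  intro g hg i
  have := congrArg (co i) hg
  simpa [co_bb] using this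

noncomputable def bas : Basis (Fin 8) ℂ (RCA 0) := Basis.mk li_bb span_bb

theorem bas_repr (a : RCA 0) (i : Fin 8) : bas.repr a i = co i a := by
  have : bas.coord i = co i := by
    apply bas.ext
    intro j
    rw [Basis.coord_apply, Basis.repr_self, Finsupp.single_apply, bas, Basis.mk_apply, co_bb]
    simp [eq_comm]
  rw [← this]; rfl

theorem htr (t : RCA 0) :
    LinearMap.trace ℂ (RCA 0) (LinearMap.mulLeft ℂ as ∘ₗ LinearMap.mulRight ℂ t) = 0 := by
  rw [LinearMap.trace_eq_matrix_trace ℂ bas, Matrix.trace]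
  simp only [Matrix.diag_apply, LinearMap.toMatrix_apply, LinearMap.comp_apply,
      LinearMap.mulLeft_apply, LinearMap.mulRight_apply, bas_repr]
  have ht : t ∈ Submodule.span ℂ (Set.range bb) := span_bb trivial
  induction ht using Submodule.span_induction with
  | mem z h =>
    obtain ⟨j, rfl⟩ := h
    have : ∀ i, co i (as * (bas i * bb j)) = (((mS * (mB i * mB j)) i 0 : ℤ) : ℂ) := by
      intro i
      show rep (as * (bas i * bb j)) i 0 = _
      rw [bas, Basis.mk_apply, map_mul, map_mul, reps, rep_bb, rep_bb, ← map_mul, ← map_mul]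
      rfl
    simp only [this]
    rw [← Int.cast_sum, m8, Int.cast_zero]
  | zero => simp
  | add a b _ _ ha hb => simp only [mul_add, map_add, Finset.sum_add_distrib, ha, hb, add_zero]
  | smul c a _ ha =>
    simp only [mul_smul_comm, map_smul, ← Finset.smul_sum, ha, smul_zero]

/-- The restricted rational Cherednik algebra of the Coxeter group Z/2 at c = 0 is not
cellular. -/
theorem result : ¬ IsCellular (RCA 0) := by
  have : Nontrivial (RCA 0) := ⟨⟨bb 0, 0, li_bb.ne_zero 0⟩⟩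
  exact general (RCA 0) ax ay as a5 a6 a4 a2 a3 a1 hgen htr

end Pool.Agent.Results.MP_385815_al.Z2
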